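import Mathlib

/-! The consecutive pattern `12435` is not monotone, yet it is stable. -/

namespace Pool.Agent.Results.MP_5514a7_co.StableCex

open Finset Equiv

/-- The factor of length `l` of the word `w` starting at position `j` (from `0`) is
order-isomorphic to `p`. -/
def Occ {l m n : ℕ} (p : Perm (Fin l)) (w : Fin m → Fin n) (j : ℕ) : Prop :=
  ∃ h : j + l ≤ m, ∀ a b : Fin l,
    w ⟨j + a, by have := a.2; omega⟩ < w ⟨j + b, by have := b.2; omega⟩ ↔ p a < p b

/-- The word `w` contains each letter `i` exactly `k i` times. -/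
def Content {m n : ℕ} (k : Fin n → ℕ) (w : Fin m → Fin n) : Prop :=
  ∀ i, (univ.filter fun a => w a = i).card = k i

open Classical in
/-- The number of words of length `m` and content `k` with exactly `s` occurrences of `p`. -/
noncomputable def cnt {l n : ℕ} (p : Perm (Fin l)) (m : ℕ) (k : Fin n → ℕ) (s : ℕ) : ℕ :=
  (univ.filter fun w : Fin m → Fin n =>
    Content k w ∧ ((range (m + 1)).filter (Occ p w)).card = s).card

/-- The distribution of occurrences of `p` depends on the multiplicities only as a multiset. -/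
def Stable {l : ℕ} (p : Perm (Fin l)) : Prop :=
  ∀ (n : ℕ) (k : Fin n → ℕ) (σ : Perm (Fin n)) (s : ℕ),
    cnt p (∑ i, k i) k s = cnt p (∑ i, k (σ i)) (fun i => k (σ i)) s

/-- `p = 12⋯l` or `p = l⋯21`. -/
def IsMonotone {l : ℕ} (p : Perm (Fin l)) : Prop := p = 1 ∨ p = Fin.revPerm

section inv
open Classical
variable {m n : ℕ} (R : Fin m → Fin m → Prop) (i i' : Fin n)

def Keep (w : Fin m → Fin n) (a : Fin m) : Prop :=
  (w a = i ∧ ∃ b, R a b ∧ w b = i') ∨ (w a = i' ∧ ∃ b, R b a ∧ w b = i)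

noncomputable def phi (w : Fin m → Fin n) (a : Fin m) : Fin n :=
  if Keep R i i' w a then w a else swap i i' (w a)

noncomputable def A (k : Fin n → ℕ) : Finset (Fin m → Fin n) :=
  univ.filter fun w => Content k w ∧ ∀ a b, R a b → w a < w b

variable {R i i'}

theorem phi_val (w : Fin m → Fin n) (a : Fin m) :
    (w a ≠ i ∧ w a ≠ i' ∧ phi R i i' w a = w a) ∨
    ((w a = i ∨ w a = i') ∧ Keep R i i' w a ∧ phi R i i' w a = w a) ∨
    (w a = i ∧ ¬ Keep R i i' w a ∧ phi R i i' w a = i') ∨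
    (w a = i' ∧ ¬ Keep R i i' w a ∧ phi R i i' w a = i) := by
  unfold phi
  by_cases hk : Keep R i i' w a
  · refine Or.inr (Or.inl ⟨?_, hk, if_pos hk⟩)
    rcases hk with h | h
    · exact Or.inl h.1
    · exact Or.inr h.1
  · rw [if_neg hk]
    by_cases h1 : w a = i
    · exact Or.inr (Or.inr (Or.inl ⟨h1, hk, by rw [h1, swap_apply_left]⟩))
    · by_cases h2 : w a = i'
      · exact Or.inr (Or.inr (Or.inr ⟨h2, hk, by rw [h2, swap_apply_right]⟩))
      · exact Or.inl ⟨h1, h2, swap_apply_of_ne_of_ne h1 h2⟩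

theorem keep_pair {w : Fin m → Fin n} {a b : Fin m} (h : R a b) (h1 : w a = i) (h2 : w b = i') :
    Keep R i i' w a ∧ Keep R i i' w b := ⟨Or.inl ⟨h1, b, h, h2⟩, Or.inr ⟨h2, a, h, h1⟩⟩

variable (hi : (i' : ℕ) = i + 1)
include hi

theorem phi_pair {w : Fin m → Fin n} (hw : ∀ a b, R a b → w a < w b) {a b : Fin m} (h : R a b) :
    phi R i i' w a < phi R i i' w b ∧
      (phi R i i' w a = i → phi R i i' w b = i' → w a = i ∧ w b = i') := by
  have h0 := hw a b h
  have hk := keep_pair (i := i) (i' := i') (w := w) h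
  have ha := phi_val (R := R) (i := i) (i' := i') w a
  have hb := phi_val (R := R) (i := i) (i' := i') w b
  by_cases k1 : Keep R i i' w a <;> by_cases k2 : Keep R i i' w b <;>
    simp only [k1, k2, Fin.lt_def, Fin.ext_iff, ne_eq, not_true, not_false_iff, true_and,
      false_and, and_false, and_true, or_false, false_or, imp_false] at * <;> omega

theorem keep_phi {w : Fin m → Fin n} (hw : ∀ a b, R a b → w a < w b) (a : Fin m) :
    Keep R i i' (phi R i i' w) a ↔ Keep R i i' w a := by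
  constructor
  · rintro (⟨h1, b, h, h2⟩ | ⟨h1, b, h, h2⟩)
    · obtain ⟨e1, e2⟩ := (phi_pair hi hw h).2 h1 h2
      exact (keep_pair h e1 e2).1
    · obtain ⟨e1, e2⟩ := (phi_pair hi hw h).2 h2 h1
      exact (keep_pair h e1 e2).2
  · rintro (⟨h1, b, h, h2⟩ | ⟨h1, b, h, h2⟩)
    · obtain ⟨k1, k2⟩ := keep_pair h h1 h2
      exact Or.inl ⟨by rw [phi, if_pos k1, h1], b, h, by rw [phi, if_pos k2, h2]⟩
    · obtain ⟨k1, k2⟩ := keep_pair h h2 h1
      exact Or.inr ⟨by rw [phi, if_pos k2, h1], b, h, by rw [phi, if_pos k1, h2]⟩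

theorem phi_phi {w : Fin m → Fin n} (hw : ∀ a b, R a b → w a < w b) :
    phi R i i' (phi R i i' w) = w := by
  funext a
  rw [phi, keep_phi hi hw, phi]
  split_ifs <;> simp

variable (hs : ∀ a b c, R a b → R a c → b = c) (hp : ∀ a b c, R a c → R b c → a = b)
include hs hp

theorem phi_content (w : Fin m → Fin n) (c : Fin n) :
    (univ.filter fun a => phi R i i' w a = c).card =
      (univ.filter fun a => w a = swap i i' c).card := by
  have hne : i ≠ i' := fun h => by rw [h] at hi; omega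
  have key : (univ.filter fun a => w a = i ∧ Keep R i i' w a).card =
      (univ.filter fun a => w a = i' ∧ Keep R i i' w a).card := by
    set P := univ.filter fun x : Fin m × Fin m => R x.1 x.2 ∧ w x.1 = i ∧ w x.2 = i' with hP
    have e1 : (univ.filter fun a => w a = i ∧ Keep R i i' w a) = P.image Prod.fst := by
      ext a
      simp only [hP, mem_filter, mem_univ, true_and, mem_image]
      constructor
      · rintro ⟨h0, ⟨h1, b, h, h2⟩ | ⟨h1, -⟩⟩
        · exact ⟨(a, b), ⟨h, h1, h2⟩, rfl⟩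
        · exact absurd (h0.symm.trans h1) hne
      · rintro ⟨⟨a, b⟩, ⟨h, h1, h2⟩, rfl⟩
        exact ⟨h1, (keep_pair h h1 h2).1⟩
    have e2 : (univ.filter fun a => w a = i' ∧ Keep R i i' w a) = P.image Prod.snd := by
      ext a
      simp only [hP, mem_filter, mem_univ, true_and, mem_image]
      constructor
      · rintro ⟨h0, ⟨h1, -⟩ | ⟨h1, b, h, h2⟩⟩
        · exact absurd (h1.symm.trans h0) hne
        · exact ⟨(b, a), ⟨h, h2, h1⟩, rfl⟩
      · rintro ⟨⟨a, b⟩, ⟨h, h1, h2⟩, rfl⟩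
        exact ⟨h2, (keep_pair h h1 h2).2⟩
    rw [e1, e2, card_image_of_injOn, card_image_of_injOn]
    · rintro ⟨a, b⟩ hx ⟨c, d⟩ hy (rfl : b = d)
      simp only [hP, coe_filter, mem_univ, true_and, Set.mem_setOf_eq] at hx hy
      rw [hp a c b hx.1 hy.1]
    · rintro ⟨a, b⟩ hx ⟨c, d⟩ hy (rfl : a = c)
      simp only [hP, coe_filter, mem_univ, true_and, Set.mem_setOf_eq] at hx hy
      rw [hs a b d hx.1 hy.1]
  rw [← card_filter_add_card_filter_not (s := univ.filter fun a => phi R i i' w a = c)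
      (Keep R i i' w),
    ← card_filter_add_card_filter_not (s := univ.filter fun a => w a = swap i i' c) (Keep R i i' w)]
  simp only [filter_filter]
  congr 1
  · have e : (univ.filter fun a => phi R i i' w a = c ∧ Keep R i i' w a) =
        univ.filter fun a => w a = c ∧ Keep R i i' w a :=
      filter_congr fun a _ => and_congr_left fun h => by rw [phi, if_pos h]
    rw [e]
    by_cases h1 : c = i
    · rw [h1, swap_apply_left, key]
    · by_cases h2 : c = i'
      · rw [h2, swap_apply_right, key]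
      · rw [swap_apply_of_ne_of_ne h1 h2]
  · congr 1
    exact filter_congr fun a _ => and_congr_left fun h => by
      rw [phi, if_neg h, swap_apply_eq_iff]

theorem A_le (k : Fin n → ℕ) : (A R k).card ≤ (A R fun c => k (swap i i' c)).card := by
  refine card_le_card_of_injOn (phi R i i') ?_ ?_
  · intro w hw
    simp only [A, coe_filter, mem_univ, true_and, Set.mem_setOf_eq] at hw ⊢
    exact ⟨fun c => by rw [phi_content hi hs hp, hw.1], fun a b h => (phi_pair hi hw.2 h).1⟩
  · intro w hw w' hw' e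
    simp only [A, coe_filter, mem_univ, true_and, Set.mem_setOf_eq] at hw hw'
    rw [← phi_phi hi hw.2, e, phi_phi hi hw'.2]

theorem A_swap (k : Fin n → ℕ) : (A R fun c => k (swap i i' c)).card = (A R k).card := by
  refine le_antisymm ?_ (A_le hi hs hp k)
  simpa using A_le hi hs hp fun c => k (swap i i' c)

omit hi in
theorem A_perm (σ : Perm (Fin n)) : ∀ k : Fin n → ℕ, (A R fun c => k (σ c)).card = (A R k).card := by
  rcases n with _ | n
  · intro k; rw [Subsingleton.elim σ 1]; rfl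
  · have h : σ ∈ Submonoid.closure (Set.range fun i : Fin n => swap i.castSucc i.succ) := by
      rw [Equiv.Perm.mclosure_swap_castSucc_succ]; trivial
    induction h using Submonoid.closure_induction with
    | mem x hx => obtain ⟨j, rfl⟩ := hx; exact A_swap (by simp) hs hp
    | one => intro k; rfl
    | mul x y _ _ hx hy => intro k; exact (hy fun c => k (x c)).trans (hx k)

end inv

def pat : Perm (Fin 5) := swap 2 3

def ext {m n : ℕ} (w : Fin m → Fin n) (a : ℕ) : ℕ := if h : a < m then w ⟨a, h⟩ else 0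

theorem ext_val {m n : ℕ} (w : Fin m → Fin n) (a : Fin m) : ext w a = w a := by simp [ext]

theorem occ_iff {m n : ℕ} (w : Fin m → Fin n) (j : ℕ) : Occ pat w j ↔ j + 5 ≤ m ∧
    ext w j < ext w (j + 1) ∧ ext w (j + 1) < ext w (j + 3) ∧ ext w (j + 3) < ext w (j + 2) ∧
      ext w (j + 2) < ext w (j + 4) := by
  have e : ∀ (a : ℕ) (h : a < m) (b : ℕ) (h' : b < m), w ⟨a, h⟩ < w ⟨b, h'⟩ ↔ ext w a < ext w b :=
    fun a h b h' => by simp [ext, h, h']
  constructor
  · rintro ⟨h, h1⟩
    simp only [e] at h1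
    exact ⟨h, (h1 0 1).2 (by decide), (h1 1 3).2 (by decide), (h1 3 2).2 (by decide),
      (h1 2 4).2 (by decide)⟩
  · rintro ⟨h, h1, h2, h3, h4⟩
    refine ⟨h, fun a b => ?_⟩
    rw [e]
    fin_cases a <;> fin_cases b <;> simp [pat, swap_apply_def] <;> omega

section main
open Classical
variable {m n : ℕ}

def RS (m : ℕ) (S : Finset ℕ) (a b : Fin m) : Prop :=
  ∃ j ∈ S, ((a : ℕ) = j ∧ (b : ℕ) = j + 1 ∧ ∀ j' ∈ S, j ≠ j' + 3) ∨
    ((a : ℕ) = j + 1 ∧ (b : ℕ) = j + 3) ∨ ((a : ℕ) = j + 3 ∧ (b : ℕ) = j + 2) ∨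
    ((a : ℕ) = j + 2 ∧ (b : ℕ) = j + 4)

noncomputable def B (m : ℕ) (S : Finset ℕ) (k : Fin n → ℕ) : Finset (Fin m → Fin n) :=
  univ.filter fun w => Content k w ∧ ∀ j ∈ S, Occ pat w j

theorem B_perm (S : Finset ℕ) (σ : Perm (Fin n)) (k : Fin n → ℕ) :
    (B m S fun c => k (σ c)).card = (B m S k).card := by
  by_cases hS : ∀ j ∈ S, j + 5 ≤ m ∧ ∀ j' ∈ S, j' ≠ j + 1 ∧ j' ≠ j + 2
  · have e : ∀ k : Fin n → ℕ, B m S k = A (RS m S) k := fun k => by
      refine filter_congr fun w _ => and_congr_right fun _ => ?_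
      simp only [occ_iff]
      constructor
      · rintro h a b ⟨j, hj, h1⟩
        obtain ⟨-, h2, h3, h4, h5⟩ := h j hj
        rw [Fin.lt_def, ← ext_val, ← ext_val]
        rcases h1 with ⟨e1, e2, -⟩ | ⟨e1, e2⟩ | ⟨e1, e2⟩ | ⟨e1, e2⟩ <;> rw [e1, e2] <;> assumption
      · intro h
        have h' : ∀ (a b : ℕ) (ha : a < m) (hb : b < m), RS m S ⟨a, ha⟩ ⟨b, hb⟩ →
            ext w a < ext w b := fun a b ha hb hr => by
          have := h _ _ hr
          rwa [Fin.lt_def, ← ext_val, ← ext_val] at this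
        have h2 : ∀ j ∈ S, ext w (j + 1) < ext w (j + 3) ∧ ext w (j + 3) < ext w (j + 2) ∧
            ext w (j + 2) < ext w (j + 4) := fun j hj => by
          have := (hS j hj).1
          exact ⟨h' _ _ (by omega) (by omega) ⟨j, hj, Or.inr (Or.inl ⟨rfl, rfl⟩)⟩,
            h' _ _ (by omega) (by omega) ⟨j, hj, Or.inr (Or.inr (Or.inl ⟨rfl, rfl⟩))⟩,
            h' _ _ (by omega) (by omega) ⟨j, hj, Or.inr (Or.inr (Or.inr ⟨rfl, rfl⟩))⟩⟩
        intro j hj
        have := (hS j hj).1
        refine ⟨this, ?_, h2 j hj⟩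
        by_cases h3 : ∀ j' ∈ S, j ≠ j' + 3
        · exact h' _ _ (by omega) (by omega) ⟨j, hj, Or.inl ⟨rfl, rfl, h3⟩⟩
        · push Not at h3
          obtain ⟨j', hj', rfl⟩ := h3
          have := h2 j' hj'
          rw [show j' + 3 + 1 = j' + 4 by ring]
          omega
    rw [e, e]
    refine A_perm ?_ ?_ σ k
    · rintro a b c ⟨j, hj, h1⟩ ⟨j', hj', h2⟩
      have t1 := (hS j hj).2 j' hj'
      have t2 := (hS j' hj').2 j hj
      have t3 : (∀ x ∈ S, j ≠ x + 3) → j ≠ j' + 3 := fun h => h j' hj'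
      have t4 : (∀ x ∈ S, j' ≠ x + 3) → j' ≠ j + 3 := fun h => h j hj
      refine Fin.ext ?_
      rcases h1 with ⟨e1, e2, e3⟩ | ⟨e1, e2⟩ | ⟨e1, e2⟩ | ⟨e1, e2⟩ <;>
        rcases h2 with ⟨f1, f2, f3⟩ | ⟨f1, f2⟩ | ⟨f1, f2⟩ | ⟨f1, f2⟩ <;>
        first | omega | (have := t3 e3; omega) | (have := t4 f3; omega)
    · rintro a b c ⟨j, hj, h1⟩ ⟨j', hj', h2⟩
      have t1 := (hS j hj).2 j' hj'
      have t2 := (hS j' hj').2 j hj
      have t3 : (∀ x ∈ S, j ≠ x + 3) → j ≠ j' + 3 := fun h => h j' hj'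
      have t4 : (∀ x ∈ S, j' ≠ x + 3) → j' ≠ j + 3 := fun h => h j hj
      refine Fin.ext ?_
      rcases h1 with ⟨e1, e2, e3⟩ | ⟨e1, e2⟩ | ⟨e1, e2⟩ | ⟨e1, e2⟩ <;>
        rcases h2 with ⟨f1, f2, f3⟩ | ⟨f1, f2⟩ | ⟨f1, f2⟩ | ⟨f1, f2⟩ <;>
        first | omega | (have := t3 e3; omega) | (have := t4 f3; omega)
  · have e : ∀ k : Fin n → ℕ, B m S k = ∅ := fun k => by
      refine filter_eq_empty_iff.2 fun w _ hw => hS fun j hj => ?_
      have h1 := (occ_iff w j).1 (hw.2 j hj)
      refine ⟨h1.1, fun j' hj' => ?_⟩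
      have h2 := (occ_iff w j').1 (hw.2 j' hj')
      constructor
      · rintro rfl
        rw [show j + 1 + 1 = j + 2 by ring, show j + 1 + 3 = j + 4 by ring,
          show j + 1 + 2 = j + 3 by ring] at h2
        omega
      · rintro rfl
        rw [show j + 2 + 1 = j + 3 by ring] at h2
        omega
    rw [e, e]

noncomputable def E (m : ℕ) (T : Finset ℕ) (k : Fin n → ℕ) : Finset (Fin m → Fin n) :=
  univ.filter fun w => Content k w ∧ (range (m + 1)).filter (Occ pat w) = T

theorem B_sum {S : Finset ℕ} (hS : S ⊆ range (m + 1)) (k : Fin n → ℕ) :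
    (B m S k).card = (E m S k).card +
      ∑ T ∈ (range (m + 1)).powerset.filter (S ⊂ ·), (E m T k).card := by
  rw [card_eq_sum_card_fiberwise (f := fun w => (range (m + 1)).filter (Occ pat w))
    (t := insert S ((range (m + 1)).powerset.filter (S ⊂ ·))), sum_insert (by simp)]
  · have e : ∀ T, S ⊆ T → (B m S k).filter (fun w => (range (m + 1)).filter (Occ pat w) = T) =
        E m T k := fun T hT => by
      rw [B, filter_filter]
      refine filter_congr fun w _ => ⟨fun h => ⟨h.1.1, h.2⟩, fun h => ⟨⟨h.1, fun j hj => ?_⟩, h.2⟩⟩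
      have := hT hj
      rw [← h.2] at this
      exact (mem_filter.1 this).2
    rw [e S Subset.rfl]
    congr 1
    exact sum_congr rfl fun T hT => by rw [e T (mem_filter.1 hT).2.1]
  · intro w hw
    have hw := (mem_filter.1 (mem_coe.1 hw)).2.2
    have h1 : S ⊆ (range (m + 1)).filter (Occ pat w) := fun j hj => mem_filter.2 ⟨hS hj, hw j hj⟩
    simp only [coe_insert, coe_filter, mem_powerset, Set.mem_insert_iff, Set.mem_setOf_eq]
    rcases eq_or_ssubset_of_subset h1 with h | h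
    · exact Or.inl h.symm
    · exact Or.inr ⟨filter_subset _ _, h⟩

theorem E_perm (σ : Perm (Fin n)) (k : Fin n → ℕ) : ∀ (d : ℕ) (S : Finset ℕ), S ⊆ range (m + 1) →
    m + 1 - S.card = d → (E m S fun c => k (σ c)).card = (E m S k).card := by
  intro d
  induction d using Nat.strong_induction_on with
  | _ d ih =>
    intro S hS hd
    have h1 := B_perm (m := m) S σ k
    rw [B_sum hS, B_sum hS, sum_congr rfl (g := fun T => (E m T k).card)] at h1
    · omega
    · intro T hT
      obtain ⟨h2, h3⟩ := mem_filter.1 hT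
      have h4 := card_lt_card h3
      have h5 := card_le_card (mem_powerset.1 h2)
      rw [card_range] at h5
      exact ih _ (by omega) T (mem_powerset.1 h2) rfl

theorem cnt_sum (k : Fin n → ℕ) (s : ℕ) :
    cnt pat m k s = ∑ T ∈ (range (m + 1)).powersetCard s, (E m T k).card := by
  rw [cnt, card_eq_sum_card_fiberwise (f := fun w => (range (m + 1)).filter (Occ pat w))
    (t := (range (m + 1)).powersetCard s)]
  · refine sum_congr rfl fun T hT => ?_
    rw [filter_filter]
    congr 1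
    exact filter_congr fun w _ => ⟨fun h => ⟨h.1.1, h.2⟩,
      fun h => ⟨⟨h.1, by rw [h.2]; exact (mem_powersetCard.1 hT).2⟩, h.2⟩⟩
  · intro w hw
    exact mem_coe.2 (mem_powersetCard.2 ⟨filter_subset _ _, (mem_filter.1 (mem_coe.1 hw)).2.2⟩)

end main

theorem result : ∃ p : Perm (Fin 5), (∀ a, (p a : ℕ) + 1 = ![1, 2, 4, 3, 5] a) ∧
    ¬ IsMonotone p ∧ Stable p := by
  refine ⟨pat, by decide, by unfold IsMonotone; decide, fun n k σ s => ?_⟩
  rw [Equiv.sum_comp σ k, cnt_sum, cnt_sum]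
  exact sum_congr rfl fun T hT => (E_perm σ k _ T (mem_powersetCard.1 hT).1 rfl).symm

end Pool.Agent.Results.MP_5514a7_co.StableCex
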